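import Pool.Agent.Helper71.CK.Goals

/-! Project CK (MP_d34459_al): packet NCOPS. -/

set_option autoImplicit false

namespace Pool.Agent.Helper94.CK

open Pool.Agent.CK

theorem loc1 {α : Type*} {L₁ M L₂ A C : List α} {p : α} (h : L₁ ++ M ++ L₂ = A ++ p :: C) :
    (∃ C₁, L₁ = A ++ p :: C₁ ∧ C = C₁ ++ M ++ L₂) ∨
    (∃ M₁ M₂, M = M₁ ++ p :: M₂ ∧ A = L₁ ++ M₁ ∧ C = M₂ ++ L₂) ∨
    (∃ A₂, L₂ = A₂ ++ p :: C ∧ A = L₁ ++ M ++ A₂) := by
  have key : ∀ (N A' : List α), N ++ L₂ = A' ++ p :: C →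
      (∃ M₂, N = A' ++ p :: M₂ ∧ C = M₂ ++ L₂) ∨ (∃ A₂, L₂ = A₂ ++ p :: C ∧ A' = N ++ A₂) := by
    intro N A' h
    rcases List.append_eq_append_iff.mp h with ⟨a, ha, hb⟩ | ⟨b, ha, hb⟩
    · exact Or.inr ⟨a, hb, ha⟩
    · cases b with
      | nil =>
        refine Or.inr ⟨[], ?_, ?_⟩
        · simpa using hb.symm
        · simpa using ha.symm
      | cons q b =>
        rw [List.cons_append, List.cons.injEq] at hb
        obtain ⟨rfl, hb⟩ := hb
        exact Or.inl ⟨b, ha, hb⟩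
  rcases key (L₁ ++ M) A h with ⟨M₂, h1, h2⟩ | ⟨A₂, h1, h2⟩
  · rcases List.append_eq_append_iff.mp h1 with ⟨a, ha, hb⟩ | ⟨b, ha, hb⟩
    · exact Or.inr (Or.inl ⟨a, M₂, hb, ha, h2⟩)
    · cases b with
      | nil =>
        refine Or.inr (Or.inl ⟨[], M₂, ?_, ?_, h2⟩)
        · simpa using hb.symm
        · simpa using ha.symm
      | cons q b =>
        rw [List.cons_append, List.cons.injEq] at hb
        obtain ⟨rfl, hb⟩ := hb
        refine Or.inl ⟨b, ha, ?_⟩
        rw [h2, hb]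
  · exact Or.inr (Or.inr ⟨A₂, h1, h2⟩)

theorem bl_append (g : Fin 2) (K K' : List ℤ) : bl g (K ++ K') = bl g K ++ bl g K' := by
  simp [bl]

theorem bl_cons (g : Fin 2) (x : ℤ) (K : List ℤ) : bl g (x :: K) = (g, x) :: bl g K := rfl

theorem bl_nil (g : Fin 2) : bl g [] = [] := rfl

theorem bl_eq_nil {g : Fin 2} {K : List ℤ} (h : bl g K = []) : K = [] := by
  simpa [bl] using h

theorem bl_eq_cons {g g' : Fin 2} {K : List ℤ} {x : ℤ} {M : List (Fin 2 × ℤ)}
    (h : bl g' K = (g, x) :: M) : g' = g ∧ ∃ K₂, K = x :: K₂ ∧ M = bl g' K₂ := by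
  cases K with
  | nil => simp [bl] at h
  | cons k K =>
    rw [bl_cons, List.cons.injEq, Prod.mk.injEq] at h
    obtain ⟨⟨h1, h2⟩, h3⟩ := h
    exact ⟨h1, K, by rw [h2], h3.symm⟩

theorem bl_eq_append {g : Fin 2} {K : List ℤ} {M₁ M₂ : List (Fin 2 × ℤ)}
    (h : bl g K = M₁ ++ M₂) : ∃ K₁ K₂, K = K₁ ++ K₂ ∧ M₁ = bl g K₁ ∧ M₂ = bl g K₂ := by
  obtain ⟨K₁, K₂, h1, h2, h3⟩ := List.map_eq_append_iff.mp h
  exact ⟨K₁, K₂, h1, h2.symm, h3.symm⟩

theorem cost_cons (g : Fin 2) (K : List ℤ) (B : List (Fin 2 × List ℤ)) :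
    cost ((g, K) :: B) = K.sum.natAbs + cost B := by
  simp [cost]

theorem repl {W : List (Fin 2 × ℤ)} {B : List (Fin 2 × List ℤ)} (h : NC W B) :
    ∀ (A C : List (Fin 2 × ℤ)) (g : Fin 2) (y : ℤ), W = A ++ (g, y) :: C → ∀ Z : List ℤ,
      ∃ B', NC (A ++ bl g Z ++ C) B' ∧ cost B' ≤ cost B + (Z.sum - y).natAbs := by
  induction h with
  | nil =>
    intro A C g y h
    simp at h
  | ins g' L₁ K L₂ B₀ h₀ ih =>
    intro A C g y hW Z
    rcases loc1 hW with ⟨C₁, h1, h2⟩ | ⟨M₁, M₂, h1, h2, h3⟩ | ⟨A₂, h1, h2⟩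
    · obtain ⟨B', hB', hc⟩ := ih A (C₁ ++ L₂) g y (by rw [h1]; simp) Z
      refine ⟨(g', K) :: B', ?_, ?_⟩
      · have h5 : A ++ bl g Z ++ (C₁ ++ L₂) = (A ++ bl g Z ++ C₁) ++ L₂ := by simp
        rw [h5] at hB'
        have h6 := NC.ins g' (A ++ bl g Z ++ C₁) K L₂ B' hB'
        have h7 : A ++ bl g Z ++ C = (A ++ bl g Z ++ C₁) ++ bl g' K ++ L₂ := by rw [h2]; simp
        rw [h7]
        exact h6
      · rw [cost_cons, cost_cons]
        omega
    · obtain ⟨K₁, K', hK, hM₁, hM'⟩ := bl_eq_append h1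
      obtain ⟨hg, K₂, hK', hM₂⟩ := bl_eq_cons hM'.symm
      subst hg
      refine ⟨(g', K₁ ++ Z ++ K₂) :: B₀, ?_, ?_⟩
      · have h6 := NC.ins g' L₁ (K₁ ++ Z ++ K₂) L₂ B₀ h₀
        have h7 : A ++ bl g' Z ++ C = L₁ ++ bl g' (K₁ ++ Z ++ K₂) ++ L₂ := by
          rw [h2, h3, hM₁, hM₂, bl_append, bl_append]
          simp
        rw [h7]
        exact h6
      · rw [cost_cons, cost_cons, hK, hK']
        simp only [List.sum_append, List.sum_cons]
        omega
    · obtain ⟨B', hB', hc⟩ := ih (L₁ ++ A₂) C g y (by rw [h1]; simp) Z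
      refine ⟨(g', K) :: B', ?_, ?_⟩
      · have h5 : (L₁ ++ A₂) ++ bl g Z ++ C = L₁ ++ (A₂ ++ bl g Z ++ C) := by simp
        rw [h5] at hB'
        have h6 := NC.ins g' L₁ K (A₂ ++ bl g Z ++ C) B' hB'
        have h7 : A ++ bl g Z ++ C = L₁ ++ bl g' K ++ (A₂ ++ bl g Z ++ C) := by rw [h2]; simp
        rw [h7]
        exact h6
      · rw [cost_cons, cost_cons]
        omega

theorem merge {W : List (Fin 2 × ℤ)} {B : List (Fin 2 × List ℤ)} (h : NC W B) :
    ∀ (A C : List (Fin 2 × ℤ)) (g : Fin 2) (x y : ℤ), W = A ++ (g, x) :: (g, y) :: C →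
      ∃ B', NC (A ++ (g, x + y) :: C) B' ∧ cost B' ≤ cost B := by
  induction h with
  | nil =>
    intro A C g x y h
    simp at h
  | ins g' L₁ K L₂ B₀ h₀ ih =>
    intro A C g x y hW
    rcases loc1 hW with ⟨C₁, h1, h2⟩ | ⟨M₁, M₂, h1, h2, h3⟩ | ⟨A₂, h1, h2⟩
    · cases C₁ with
      | nil =>
        -- `L₁ = A ++ [(g,x)]`
        cases K with
        | nil =>
          have h3 : L₂ = (g, y) :: C := by
            rw [h2]; simp [bl]
          obtain ⟨B', hB', hc⟩ := ih A C g x y (by rw [h1, h3]; simp)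
          refine ⟨B', hB', ?_⟩
          rw [cost_cons]
          omega
        | cons k K₂ =>
          rw [bl_cons] at h2
          simp only [List.nil_append, List.cons_append, List.cons.injEq, Prod.mk.injEq] at h2
          obtain ⟨⟨h4, h5⟩, h6⟩ := h2
          subst h4
          subst h5
          obtain ⟨B', hB', hc⟩ := repl h₀ A L₂ g x (by rw [h1]; simp) ((x + y) :: K₂)
          refine ⟨B', ?_, ?_⟩
          · have h7 : A ++ (g, x + y) :: C = A ++ bl g ((x + y) :: K₂) ++ L₂ := by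
              rw [h6, bl_cons]; simp
            rw [h7]
            exact hB'
          · rw [cost_cons]
            simp only [List.sum_cons] at hc ⊢
            have : (x + y + K₂.sum - x) = y + K₂.sum := by ring
            rw [this] at hc
            omega
      | cons q C₁ =>
        simp only [List.cons_append, List.cons.injEq] at h2
        obtain ⟨h4, h5⟩ := h2
        subst h4
        obtain ⟨B', hB', hc⟩ := ih A (C₁ ++ L₂) g x y (by rw [h1]; simp)
        refine ⟨(g', K) :: B', ?_, ?_⟩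
        · have h6 : A ++ (g, x + y) :: (C₁ ++ L₂) = (A ++ (g, x + y) :: C₁) ++ L₂ := by simp
          rw [h6] at hB'
          have h7 := NC.ins g' (A ++ (g, x + y) :: C₁) K L₂ B' hB'
          have h8 : A ++ (g, x + y) :: C = (A ++ (g, x + y) :: C₁) ++ bl g' K ++ L₂ := by
            rw [h5]; simp
          rw [h8]
          exact h7
        · rw [cost_cons, cost_cons]
          omega
    · obtain ⟨K₁, K', hK, hM₁, hM'⟩ := bl_eq_append h1
      obtain ⟨hg, K₂, hK', hM₂⟩ := bl_eq_cons hM'.symm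
      subst hg
      cases M₂ with
      | nil =>
        have hK₂ : K₂ = [] := bl_eq_nil hM₂.symm
        subst hK₂
        have h4 : L₂ = (g', y) :: C := by simpa using h3.symm
        obtain ⟨B', hB', hc⟩ := repl h₀ L₁ C g' y (by rw [h4]) (K₁ ++ [x + y])
        refine ⟨B', ?_, ?_⟩
        · have h7 : A ++ (g', x + y) :: C = L₁ ++ bl g' (K₁ ++ [x + y]) ++ C := by
            rw [h2, hM₁, bl_append, bl_cons, bl_nil]; simp
          rw [h7]
          exact hB'
        · rw [cost_cons, hK, hK']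
          simp only [List.sum_append, List.sum_cons, List.sum_nil, add_zero] at hc ⊢
          have : (K₁.sum + (x + y) - y) = K₁.sum + x := by ring
          rw [this] at hc
          omega
      | cons q M₂ =>
        simp only [List.cons_append, List.cons.injEq] at h3
        obtain ⟨h4, h5⟩ := h3
        subst h4
        obtain ⟨-, K₃, hK₂, hM₂'⟩ := bl_eq_cons hM₂.symm
        refine ⟨(g', K₁ ++ (x + y) :: K₃) :: B₀, ?_, ?_⟩
        · have h6 := NC.ins g' L₁ (K₁ ++ (x + y) :: K₃) L₂ B₀ h₀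
          have h7 : A ++ (g', x + y) :: C = L₁ ++ bl g' (K₁ ++ (x + y) :: K₃) ++ L₂ := by
            rw [h2, h5, hM₁, hM₂', bl_append, bl_cons]
            simp
          rw [h7]
          exact h6
        · rw [cost_cons, cost_cons, hK, hK', hK₂]
          simp only [List.sum_append, List.sum_cons]
          omega
    · obtain ⟨B', hB', hc⟩ := ih (L₁ ++ A₂) C g x y (by rw [h1]; simp)
      refine ⟨(g', K) :: B', ?_, ?_⟩
      · have h5 : (L₁ ++ A₂) ++ (g, x + y) :: C = L₁ ++ (A₂ ++ (g, x + y) :: C) := by simp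
        rw [h5] at hB'
        have h6 := NC.ins g' L₁ K (A₂ ++ (g, x + y) :: C) B' hB'
        have h7 : A ++ (g, x + y) :: C = L₁ ++ bl g' K ++ (A₂ ++ (g, x + y) :: C) := by
          rw [h2]; simp
        rw [h7]
        exact h6
      · rw [cost_cons, cost_cons]
        omega

theorem nest {M : List (Fin 2 × ℤ)} {B' : List (Fin 2 × List ℤ)} (h : NC M B') :
    ∀ (A C : List (Fin 2 × ℤ)) (B : List (Fin 2 × List ℤ)), NC (A ++ C) B →
      NC (A ++ M ++ C) (B' ++ B) := by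
  induction h with
  | nil =>
    intro A C B h
    simpa using h
  | ins g L₁ K L₂ B₀ h₀ ih =>
    intro A C B h
    have h1 := ih A C B h
    have h2 : A ++ (L₁ ++ L₂) ++ C = (A ++ L₁) ++ (L₂ ++ C) := by simp
    rw [h2] at h1
    have h3 := NC.ins g (A ++ L₁) K (L₂ ++ C) (B₀ ++ B) h1
    have h4 : A ++ (L₁ ++ bl g K ++ L₂) ++ C = (A ++ L₁) ++ bl g K ++ (L₂ ++ C) := by simp
    rw [h4]
    exact h3

theorem ncops : S_NCOPS :=
  ⟨fun A C g y _ h Z => repl h A C g y rfl Z, fun A C g x y _ h => merge h A C g x y rfl,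
    fun A C _ B _ h h' => nest h' A C B h⟩

end Pool.Agent.Helper94.CK
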